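import Pool.Agent.Zk81.Pf.Main

/-!
# MP_f5e7e2_co, Q1: the first Pfaffian built from the Al-Salam–Carlitz moments

With `x_i = q^{i-1}` and the moments `g_r = ∑_j [r, j]_q a^j` of the Al-Salam–Carlitz polynomials
`Pf((x_i - x_j) g_{i+j-3})_{i,j=1..2n} = a^{n(n-1)} q^{e(n) - 2mm'} P_n` for all `n ≥ 1`, where
`m = ⌊n/2⌋`, `m' = ⌊(n-1)/2⌋`, `e(n) = m(16m²-1)/3 - (-1)^n 4m²` and `P_n = ∏_{k=1}^n (q;q)_{2k-1}`.

The definitions (`Pool.Agent.Zk81.Pf.Defs`) are those of the problem, for elements `a`, `q` of a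
field `K` of characteristic zero, `q` not being a root of unity: `poch q m = (q;q)_m`,
`gaussBinom q m k` the Gaussian binomial, `moment a q r = g_r`, `pfaffian` the Pfaffian as a sum
over all permutations, `expo n = e(n)`. For `K = ℚ(a, q)` this is the identity of the problem.
The rows and columns `1, …, 2n` are numbered `0, …, 2n-1` here.

Proof: in the basis of the monic Al-Salam–Carlitz polynomials `U_k` the skew form
`⟨f, g⟩ = L((f(qx) g(x) - f(x) g(qx)) / x)` is tridiagonal, since `U_k(x) - U_k(qx) = (1-q^k) x U_{k-1}(x)`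
and the `U_k` are orthogonal for the moment functional `L`.
-/

set_option autoImplicit false

namespace Pool.Agent.Results.MP_f5e7e2_co.FirstPfaffian

open Finset Pool.Agent.Zk81.Pf

theorem result (K : Type) [Field K] [CharZero K] (a q : K) (hq : ∀ i : ℕ, 1 ≤ i → q ^ i ≠ 1)
    (n : ℕ) (hn : 1 ≤ n) :
    pfaffian (Matrix.of fun i j : Fin (2 * n) => (q ^ (i : ℕ) - q ^ (j : ℕ)) *
      moment a q (((i : ℕ) : ℤ) + 1 + (((j : ℕ) : ℤ) + 1) - 3)) =
    a ^ (n * (n - 1)) * q ^ (expo n - 2 * (((n / 2 : ℕ) : ℤ) * (((n - 1) / 2 : ℕ) : ℤ))) *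
      ∏ k ∈ Icc 1 n, poch q (2 * k - 1) :=
  main1 hq a n hn

end Pool.Agent.Results.MP_f5e7e2_co.FirstPfaffian
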